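import Mathlib

set_option autoImplicit false

namespace Pool.Agent.Results.MP_67c2f3_gt.NotT

open Set Filter Topology

/-- the group of characters of a topological abelian group -/
abbrev Dual (X : Type) [AddCommGroup X] [TopologicalSpace X] := ContinuousAddMonoidHom X UnitAddCircle

/-- `s_v(X)` -/
def s {X : Type} [AddCommGroup X] [TopologicalSpace X] (v : ℕ → Dual X) : Set X :=
  {x | Tendsto (fun n => v n x) atTop (𝓝 0)}

/-- T-sequences of an abstract abelian group -/
def TSeq {G : Type} [AddCommGroup G] (v : ℕ → G) : Prop :=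
  ∃ τ : TopologicalSpace G, @IsTopologicalAddGroup G τ _ ∧ @T2Space G τ ∧ Tendsto v atTop (@nhds G τ 0)

def TChar {X : Type} [AddCommGroup X] [TopologicalSpace X] (H : AddSubgroup X) : Prop :=
  ∃ v : ℕ → Dual X, TSeq v ∧ (H : Set X) = s v

def AutoChar (Y : Type) [AddCommGroup Y] [TopologicalSpace Y] : Prop :=
  ∃ u : ℕ → Dual Y, (¬ ∀ᶠ n in atTop, u n = 0) ∧ s u = univ

def Summand {X : Type} [AddCommGroup X] [TopologicalSpace X] (H : AddSubgroup X) : Prop :=
  ∃ Z : AddSubgroup X, IsHomeomorph fun p : H × Z => (p.1 : X) + p.2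

def X : Type := (ℕ →₀ ZMod 2) × ZMod 3

noncomputable instance : AddCommGroup X := inferInstanceAs (AddCommGroup ((ℕ →₀ ZMod 2) × ZMod 3))
instance : TopologicalSpace X := ⊥
instance : DiscreteTopology X := ⟨rfl⟩

noncomputable def snd : X →+ ZMod 3 := AddMonoidHom.snd (ℕ →₀ ZMod 2) (ZMod 3)
noncomputable def fst : X →+ (ℕ →₀ ZMod 2) := AddMonoidHom.fst (ℕ →₀ ZMod 2) (ZMod 3)

theorem X.ext {x y : X} (h1 : fst x = fst y) (h2 : snd x = snd y) : x = y := Prod.ext h1 h2

def mk (a : ℕ →₀ ZMod 2) (b : ZMod 3) : X := (a, b)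

@[simp] theorem fst_mk (a : ℕ →₀ ZMod 2) (b : ZMod 3) : fst (mk a b) = a := rfl
@[simp] theorem snd_mk (a : ℕ →₀ ZMod 2) (b : ZMod 3) : snd (mk a b) = b := rfl

noncomputable def H : AddSubgroup X := snd.ker

noncomputable def u (n : ℕ) : Dual H where
  toAddMonoidHom := ZMod.toAddCircle.comp ((Finsupp.applyAddHom n).comp (fst.comp H.subtype))
  continuous_toFun := continuous_of_discreteTopology

theorem u_apply (n : ℕ) (x : H) : u n x = ZMod.toAddCircle (fst x n) := rfl

theorem auto : AutoChar H := by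
  refine ⟨u, fun h => ?_, eq_univ_of_forall fun x => ?_⟩
  · obtain ⟨n, hn⟩ := h.exists
    have h1 : u n ⟨mk (Finsupp.single n 1) 0, rfl⟩ = 0 := by rw [hn]; rfl
    rw [u_apply, ← map_zero (ZMod.toAddCircle (N := 2))] at h1
    have h2 := ZMod.toAddCircle_injective 2 h1
    simp at h2
  · refine tendsto_const_nhds.congr' ?_
    have : ∀ᶠ n in atTop, fst x n = 0 := by
      rw [← Nat.cofinite_eq_atTop]
      exact (fst x).finite_support
    exact this.mono fun n h => by simp only [u_apply, h, map_zero]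

theorem summand : Summand H := by
  refine ⟨fst.ker, continuous_of_discreteTopology, fun _ _ => isOpen_discrete _, ?_, ?_⟩
  · rintro ⟨⟨a, ha⟩, ⟨b, hb⟩⟩ ⟨⟨c, hc⟩, ⟨d, hd⟩⟩ h
    have ha' : snd a = 0 := ha
    have hb' : fst b = 0 := hb
    have hc' : snd c = 0 := hc
    have hd' : fst d = 0 := hd
    have h1 := congrArg fst h
    have h2 := congrArg snd h
    simp only [map_add, ha', hb', hc', hd', add_zero, zero_add] at h1 h2
    exact Prod.ext (Subtype.ext (X.ext h1 (ha'.trans hc'.symm))) (Subtype.ext (X.ext (hb'.trans hd'.symm) h2))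
  · intro x
    refine ⟨(⟨mk (fst x) 0, rfl⟩, ⟨mk 0 (snd x), rfl⟩), X.ext ?_ ?_⟩ <;> simp

theorem dbl (v : Dual X) (x : X) : (v + v) x = (v + v) (mk 0 (snd x)) := by
  have h : x + x = mk 0 (snd x) + mk 0 (snd x) := by
    refine X.ext ?_ (by simp)
    ext n
    have : ∀ a : ZMod 2, a + a = 0 := by decide
    simp [this]
  show v x + v x = v _ + v _
  rw [← map_add, h, map_add]

theorem three (b : ZMod 3) : mk 0 b + mk 0 b + mk 0 b = 0 := by
  refine X.ext (by simp) ?_
  have : ∀ a : ZMod 3, a + a + a = 0 := by decide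
  simp [this]

theorem fin_dbl : (range fun v : Dual X => v + v).Finite := by
  have hf : {t : UnitAddCircle | 3 • t = 0}.Finite := AddCircle.finite_torsion 1 (by norm_num)
  refine Finite.of_finite_image (f := fun (w : Dual X) (b : ZMod 3) => w (mk 0 b))
    ((Finite.pi' fun _ : ZMod 3 => hf).subset ?_) ?_
  · rintro _ ⟨w, -, rfl⟩ b
    show 3 • w (mk 0 b) = 0
    rw [← map_zero w, ← three b, map_add, map_add, succ_nsmul, two_nsmul]
  · rintro _ ⟨v, rfl⟩ _ ⟨w, rfl⟩ h
    ext x
    rw [dbl v, dbl w]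
    exact congrFun h _

theorem notT : ¬ TChar H := by
  rintro ⟨v, ⟨τ, hτ, h2, hv⟩, hH⟩
  have h1 : Tendsto (fun n => v n + v n) atTop (@nhds _ τ 0) := by simpa using hv.add hv
  have h3 : ∀ᶠ n in atTop, v n + v n ∉ (range fun v : Dual X => v + v) \ {0} :=
    h1.eventually ((fin_dbl.subset diff_subset).isClosed.isOpen_compl.mem_nhds (by simp))
  have h4 : mk 0 1 ∈ s v := by
    refine tendsto_const_nhds.congr' (h3.mono fun n hn => ?_)
    have h5 : v n + v n = 0 := by
      by_contra h6
      exact hn ⟨⟨_, rfl⟩, h6⟩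
    have h7 : v n (mk 0 1) + v n (mk 0 1) = 0 := by
      show (v n + v n) _ = 0
      rw [h5]; rfl
    have h8 := congrArg (v n) (three 1)
    rw [map_add, map_add, h7, zero_add, map_zero] at h8
    exact h8.symm
  rw [← hH] at h4
  have : (1 : ZMod 3) = 0 := h4
  exact absurd this (by decide)

/-- Q1 and Q2 fail: an open, finite-index, autocharacterized topological direct summand that is not
T-characterized -/
theorem result : ∃ (X : Type) (_ : AddCommGroup X) (_ : TopologicalSpace X) (_ : IsTopologicalAddGroup X)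
    (H : AddSubgroup X), T2Space X ∧ IsOpen (H : Set X) ∧ H.FiniteIndex ∧ AutoChar H ∧ Summand H ∧ ¬ TChar H :=
  ⟨X, inferInstance, inferInstance, inferInstance, H, inferInstance, isOpen_discrete _,
    AddSubgroup.finiteIndex_ker snd, auto, summand, notT⟩

end Pool.Agent.Results.MP_67c2f3_gt.NotT
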